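import Pool.Agent.H268R2.LB.Bounds

/-! Small dense spots in labelled graphs with many edges. -/

set_option autoImplicit false

open Finset

namespace Pool.Agent.H268R3.BE

variable {ι Ω : Type*}

open Classical in
/-- In a labelled graph with many edges a few edges touch at most as many vertices. -/
theorem short_cycle [Fintype Ω] (τ : ι → Finset Ω) (I : Finset ι)
    (hτ : ∀ i ∈ I, (τ i).card = 2) {R d : ℕ} (hR : 1 ≤ R)
    (hd : Fintype.card Ω < d ^ R) (hI : Fintype.card Ω * d ≤ I.card) (hne : I.Nonempty) :
    ∃ P ⊆ I, P.Nonempty ∧ P.card ≤ 2 * R ∧ (P.biUnion τ).card ≤ P.card := by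
  by_cases hinj : Set.InjOn τ (I : Set ι)
  · have hex : ∀ i : ι, ∃ a b : Ω, i ∈ I → (a ≠ b ∧ τ i = {a, b}) := by
      intro i
      by_cases hi : i ∈ I
      · obtain ⟨a, b, hab, h⟩ := card_eq_two.mp (hτ i hi)
        exact ⟨a, b, fun _ => ⟨hab, h⟩⟩
      · obtain ⟨j, hj⟩ := hne
        obtain ⟨a, b, hab, h⟩ := card_eq_two.mp (hτ j hj)
        exact ⟨a, b, fun h' => absurd h' hi⟩
    choose a b hab using hex
    obtain ⟨G, hG⟩ : ∃ G : SimpleGraph Ω, ∀ x y, G.Adj x y ↔ (x ≠ y ∧ ∃ i ∈ I, τ i = {x, y}) :=
      ⟨{ Adj := fun x y => x ≠ y ∧ ∃ i ∈ I, τ i = {x, y}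
         symm := ⟨fun x y h => ⟨h.1.symm, by
          obtain ⟨i, hi, h2⟩ := h.2
          exact ⟨i, hi, by rw [h2, pair_comm]⟩⟩⟩
         loopless := ⟨fun x h => h.1 rfl⟩ }, fun x y => Iff.rfl⟩
    have hadj : ∀ i ∈ I, G.Adj (a i) (b i) := fun i hi =>
      (hG _ _).mpr ⟨(hab i hi).1, i, hi, (hab i hi).2⟩
    have hcardG : I.card ≤ G.edgeFinset.card := by
      refine card_le_card_of_injOn (fun i => s(a i, b i)) ?_ ?_
      · intro i hi
        simp only [SimpleGraph.coe_edgeFinset, SimpleGraph.mem_edgeSet]
        exact hadj i hi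
      · intro i hi j hj hij
        apply hinj hi hj
        rw [(hab i hi).2, (hab j hj).2]
        rcases Sym2.eq_iff.mp hij with ⟨h1, h2⟩ | ⟨h1, h2⟩
        · rw [h1, h2]
        · rw [h1, h2, pair_comm]
    have hΩ : Nonempty Ω := by
      obtain ⟨j, hj⟩ := hne
      exact ⟨a j⟩
    have hcyc : ∃ (v : Ω) (p : G.Walk v v), p.IsCycle ∧ p.length ≤ 2 * R := by
      by_contra hcon
      push Not at hcon
      have hpos : 0 < G.edgeFinset.card := lt_of_lt_of_le (card_pos.mpr hne) hcardG
      obtain ⟨W, ⟨v, hv⟩, hW⟩ := Pool.Agent.H268R2.LB.core G hpos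
      obtain ⟨E, hE1, hE2⟩ := Pool.Agent.H268R2.LB.growth hcon W
        (G.edgeFinset.card / Fintype.card Ω + 1)
        (fun x hx => by
          have := hW x hx
          have h2 : G.edgeFinset.card / Fintype.card Ω < #{y ∈ W | G.Adj x y} :=
            Nat.div_lt_of_lt_mul this
          omega) hv R le_rfl
      rw [Nat.add_sub_cancel] at hE1
      have h3 : d ≤ G.edgeFinset.card / Fintype.card Ω := by
        rw [Nat.le_div_iff_mul_le Fintype.card_pos]
        rw [mul_comm]
        exact hI.trans hcardG
      have h4 := Nat.pow_le_pow_left h3 R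
      have h5 : E.card ≤ Fintype.card Ω := card_le_univ E
      omega
    obtain ⟨v, p, hp, hlen⟩ := hcyc
    have hlen' : p.edges.toFinset.card = p.length := by
      rw [List.toFinset_card_of_nodup hp.isTrail.edges_nodup, SimpleGraph.Walk.length_edges]
    refine ⟨I.filter (fun i => s(a i, b i) ∈ p.edges), filter_subset _ _, ?_, ?_, ?_⟩
    · -- nonempty
      have h3 := hp.three_le_length
      have : p.edges.toFinset.Nonempty := by
        rw [← card_pos, hlen']; omega
      obtain ⟨e, he⟩ := this
      rw [List.mem_toFinset] at he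
      have he' := p.edges_subset_edgeSet he
      induction e using Sym2.ind with
      | _ x y =>
        rw [SimpleGraph.mem_edgeSet, hG] at he'
        obtain ⟨hxy, i, hi, h2⟩ := he'
        refine ⟨i, mem_filter.mpr ⟨hi, ?_⟩⟩
        have h4 := (hab i hi).2
        rw [h2] at h4
        have h5 : s(a i, b i) = s(x, y) := by
          have ha : a i ∈ ({x, y} : Finset Ω) := by rw [h4]; simp
          have hb : b i ∈ ({x, y} : Finset Ω) := by rw [h4]; simp
          have hne := (hab i hi).1
          rw [mem_insert, mem_singleton] at ha hb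
          rcases ha with ha | ha <;> rcases hb with hb | hb
          · exact absurd (ha.trans hb.symm) hne
          · rw [ha, hb]
          · rw [ha, hb]; exact Sym2.eq_swap
          · exact absurd (ha.trans hb.symm) hne
        rw [h5]; exact he
    · rw [← hlen'] at hlen
      refine le_trans ?_ hlen
      refine card_le_card_of_injOn (fun i => s(a i, b i)) ?_ ?_
      · intro i hi
        rw [mem_coe, mem_filter] at hi
        simpa using hi.2
      · intro i hi j hj hij
        rw [mem_coe, mem_filter] at hi hj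
        apply hinj hi.1 hj.1
        rw [(hab i hi.1).2, (hab j hj.1).2]
        rcases Sym2.eq_iff.mp hij with ⟨h1, h2⟩ | ⟨h1, h2⟩
        · rw [h1, h2]
        · rw [h1, h2, pair_comm]
    · have h1 : (I.filter (fun i => s(a i, b i) ∈ p.edges)).biUnion τ ⊆ p.support.tail.toFinset := by
        intro x hx
        rw [mem_biUnion] at hx
        obtain ⟨i, hi, hx⟩ := hx
        rw [mem_filter] at hi
        rw [(hab i hi.1).2, mem_insert, mem_singleton] at hx
        rw [List.mem_toFinset]
        have hxs : x ∈ p.support := by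
          rcases hx with hx | hx
          · rw [hx]; exact p.fst_mem_support_of_mem_edges hi.2
          · rw [hx]; exact p.snd_mem_support_of_mem_edges hi.2
        rw [← SimpleGraph.Walk.cons_tail_support, List.mem_cons] at hxs
        rcases hxs with hxs | hxs
        · rw [hxs]
          exact p.end_mem_tail_support hp.not_nil
        · exact hxs
      have h2 : p.support.tail.toFinset.card ≤ p.length := by
        refine (List.toFinset_card_le _).trans ?_
        rw [List.length_tail, SimpleGraph.Walk.length_support]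
        omega
      have h3 : p.edges.toFinset ⊆
          (I.filter (fun i => s(a i, b i) ∈ p.edges)).image (fun i => s(a i, b i)) := by
        intro e he
        rw [List.mem_toFinset] at he
        have he' := p.edges_subset_edgeSet he
        induction e using Sym2.ind with
        | _ x y =>
          rw [SimpleGraph.mem_edgeSet, hG] at he'
          obtain ⟨hxy, i, hi, h2⟩ := he'
          have h4 := (hab i hi).2
          rw [h2] at h4
          have h5 : s(a i, b i) = s(x, y) := by
            have ha : a i ∈ ({x, y} : Finset Ω) := by rw [h4]; simp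
            have hb : b i ∈ ({x, y} : Finset Ω) := by rw [h4]; simp
            have hne := (hab i hi).1
            rw [mem_insert, mem_singleton] at ha hb
            rcases ha with ha | ha <;> rcases hb with hb | hb
            · exact absurd (ha.trans hb.symm) hne
            · rw [ha, hb]
            · rw [ha, hb]; exact Sym2.eq_swap
            · exact absurd (ha.trans hb.symm) hne
          rw [mem_image]
          exact ⟨i, mem_filter.mpr ⟨hi, by rw [h5]; exact he⟩, h5⟩
      calc _ ≤ p.support.tail.toFinset.card := card_le_card h1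
        _ ≤ p.length := h2
        _ = p.edges.toFinset.card := hlen'.symm
        _ ≤ _ := card_le_card h3
        _ ≤ _ := card_image_le
  · -- two edges with the same ends
    rw [Set.InjOn] at hinj
    push Not at hinj
    obtain ⟨i, hi, j, hj, hij, hne'⟩ := hinj
    refine ⟨{i, j}, ?_, ⟨i, by simp⟩, ?_, ?_⟩
    · intro x hx
      rw [mem_insert, mem_singleton] at hx
      rcases hx with rfl | rfl
      · exact hi
      · exact hj
    · rw [card_pair hne']; omega
    · rw [card_pair hne']
      have : ({i, j} : Finset ι).biUnion τ = τ i := by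
        ext x
        simp only [mem_biUnion, mem_insert, mem_singleton]
        constructor
        · rintro ⟨l, rfl | rfl, h⟩
          · exact h
          · rw [hij]; exact h
        · intro h
          exact ⟨i, Or.inl rfl, h⟩
      rw [this, hτ i hi]

open Classical in
/-- Many pairwise disjoint short cycles. -/
theorem many_cycles [Fintype Ω] (τ : ι → Finset Ω) (I : Finset ι)
    (hτ : ∀ i ∈ I, (τ i).card = 2) {R d : ℕ} (hR : 1 ≤ R)
    (hd : Fintype.card Ω < d ^ R) (J : ℕ) (hI : Fintype.card Ω * d + 2 * R * J ≤ I.card)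
    (hΩ : 0 < Fintype.card Ω) :
    ∃ C : ℕ → Finset ι, (∀ j < J, C j ⊆ I ∧ (C j).Nonempty ∧ (C j).card ≤ 2 * R ∧
      ((C j).biUnion τ).card ≤ (C j).card) ∧ ∀ i < J, ∀ j < J, i ≠ j → Disjoint (C i) (C j) := by
  have hd0 : 0 < d := by
    rcases Nat.eq_zero_or_pos d with h | h
    · subst h
      rw [zero_pow (by omega)] at hd
      omega
    · exact h
  induction J generalizing I with
  | zero => exact ⟨fun _ => ∅, by simp, by simp⟩
  | succ J ih =>
    have hpos : 0 < I.card := by
      have : 0 < Fintype.card Ω * d := Nat.mul_pos hΩ hd0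
      omega
    obtain ⟨P, hP, hPne, hPc, hPb⟩ := short_cycle τ I hτ hR hd (by omega) (card_pos.mp hpos)
    have hc : (I \ P).card = I.card - P.card := card_sdiff_of_subset hP
    obtain ⟨C, hC, hC'⟩ := ih (I \ P) (fun i hi => hτ i (mem_sdiff.mp hi).1) (by
      rw [hc]
      rw [mul_add, mul_one] at hI
      omega)
    refine ⟨fun j => if j = J then P else C j, ?_, ?_⟩
    · intro j hj
      by_cases hjJ : j = J
      · simp only [hjJ, if_true]
        exact ⟨hP, hPne, hPc, hPb⟩
      · simp only [hjJ, if_false]
        have := hC j (by omega)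
        exact ⟨this.1.trans sdiff_subset, this.2⟩
    · intro i hi j hj hij
      have key : ∀ j < J, Disjoint P (C j) := by
        intro j hj
        have := (hC j hj).1
        exact (disjoint_sdiff (s := P) (t := I)).mono_right this
      by_cases h1 : i = J
      · have h2 : j ≠ J := fun h => hij (h1.trans h.symm)
        simp only [h1, if_true, h2, if_false]
        exact key j (by omega)
      · by_cases h2 : j = J
        · simp only [h1, h2, if_true, if_false]
          exact (key i (by omega)).symm
        · simp only [h1, h2, if_false]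
          exact hC' i (by omega) j (by omega) hij

open Classical in
/-- A few edges touching at least two vertices fewer. -/
theorem dense_spot [Fintype Ω] (τ : ι → Finset Ω) (I : Finset ι)
    (hτ : ∀ i ∈ I, (τ i).card = 2) {R d : ℕ} (hR : 1 ≤ R)
    (hd : Fintype.card Ω < d ^ R) (hI : (2 * R + 1) * (Fintype.card Ω * d) ≤ I.card)
    (hΩ : 0 < Fintype.card Ω) :
    ∃ P ⊆ I, P.card ≤ 2 * R * (2 * R) ∧ (P.biUnion τ).card + 2 ≤ P.card := by
  have hd0 : 0 < d := by
    rcases Nat.eq_zero_or_pos d with h | h
    · subst h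
      rw [zero_pow (by omega)] at hd
      omega
    · exact h
  set J := Fintype.card Ω * d with hJ
  have hJ0 : 0 < J := Nat.mul_pos hΩ hd0
  obtain ⟨C, hC, hdis⟩ := many_cycles τ I hτ hR hd J (by rw [← hJ]; linarith) hΩ
  have hne : ∀ j, ∃ i, j < J → i ∈ C j := by
    intro j
    by_cases hj : j < J
    · obtain ⟨i, hi⟩ := (hC j hj).2.1
      exact ⟨i, fun _ => hi⟩
    · obtain ⟨i, hi⟩ := (hC 0 hJ0).2.1
      exact ⟨i, fun h => absurd h hj⟩
  choose c hc using hne
  obtain ⟨Q, hQ, hQne, hQc, hQb⟩ := short_cycle (fun j => τ (c j)) (range J)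
    (fun j hj => by
      rw [mem_range] at hj
      exact hτ _ ((hC j hj).1 (hc j hj))) hR hd (by rw [card_range]) ⟨0, mem_range.mpr hJ0⟩
  have hQJ : ∀ j ∈ Q, j < J := fun j hj => mem_range.mp (hQ hj)
  have hQ2 : 2 ≤ Q.card := by
    obtain ⟨j, hj⟩ := hQne
    have h1 : (τ (c j)).card = 2 := hτ _ ((hC j (hQJ j hj)).1 (hc j (hQJ j hj)))
    have h2 : τ (c j) ⊆ Q.biUnion (fun j => τ (c j)) := subset_biUnion_of_mem (fun j => τ (c j)) hj
    have := card_le_card h2
    omega
  have hcard : (Q.biUnion C).card = ∑ j ∈ Q, (C j).card :=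
    card_biUnion (fun i hi j hj hij => hdis i (hQJ i hi) j (hQJ j hj) hij)
  refine ⟨Q.biUnion C, ?_, ?_, ?_⟩
  · intro i hi
    rw [mem_biUnion] at hi
    obtain ⟨j, hj, hi⟩ := hi
    exact (hC j (hQJ j hj)).1 hi
  · rw [hcard]
    calc ∑ j ∈ Q, (C j).card ≤ ∑ _j ∈ Q, 2 * R := sum_le_sum fun j hj => (hC j (hQJ j hj)).2.2.1
      _ = Q.card * (2 * R) := by simp
      _ ≤ _ := Nat.mul_le_mul_right _ hQc
  · have hsub : (Q.biUnion C).biUnion τ ⊆
        (Q.biUnion (fun j => τ (c j))) ∪ Q.biUnion (fun j => (C j).biUnion τ \ τ (c j)) := by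
      intro x hx
      rw [mem_biUnion] at hx
      obtain ⟨i, hi, hx⟩ := hx
      rw [mem_biUnion] at hi
      obtain ⟨j, hj, hi⟩ := hi
      rw [mem_union]
      by_cases h : x ∈ τ (c j)
      · left
        exact mem_biUnion.mpr ⟨j, hj, h⟩
      · right
        exact mem_biUnion.mpr ⟨j, hj, mem_sdiff.mpr ⟨mem_biUnion.mpr ⟨i, hi, hx⟩, h⟩⟩
    have h1 : ∀ j ∈ Q, ((C j).biUnion τ \ τ (c j)).card + 2 ≤ (C j).card := by
      intro j hj
      have hj' := hC j (hQJ j hj)
      have hcj := hc j (hQJ j hj)
      have h2 : τ (c j) ⊆ (C j).biUnion τ := subset_biUnion_of_mem τ hcj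
      have h3 := card_sdiff_of_subset h2
      have h4 : (τ (c j)).card = 2 := hτ _ (hj'.1 hcj)
      have h5 := card_le_card h2
      have h6 := hj'.2.2.2
      omega
    have h2 : (Q.biUnion (fun j => (C j).biUnion τ \ τ (c j))).card + Q.card * 2 ≤
        ∑ j ∈ Q, (C j).card := by
      calc _ ≤ ∑ j ∈ Q, ((C j).biUnion τ \ τ (c j)).card + Q.card * 2 :=
            Nat.add_le_add_right card_biUnion_le _
        _ = ∑ j ∈ Q, (((C j).biUnion τ \ τ (c j)).card + 2) := by
            rw [sum_add_distrib]; simp
        _ ≤ _ := sum_le_sum h1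
    have h3 := (card_le_card hsub).trans (card_union_le _ _)
    rw [hcard]
    omega

end Pool.Agent.H268R3.BE
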