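import Pool.Agent.H268R3.BE.Multi

/-! Final statements for hypergraphs with a free commutative group of automorphisms. -/

set_option autoImplicit false

open Finset

namespace Pool.Agent.H268R3.BE

theorem card_orbits {V A : Type} [Fintype V] [Group A] [Fintype A] [MulAction A V]
    (hfree : ∀ (a : A) (x : V), a • x = x → a = 1)
    [Fintype (MulAction.orbitRel.Quotient A V)] :
    Fintype.card (MulAction.orbitRel.Quotient A V) * Fintype.card A = Fintype.card V := by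
  classical
  let mk : V → MulAction.orbitRel.Quotient A V := fun x => Quotient.mk _ x
  have h1 : Fintype.card V = ∑ ω : MulAction.orbitRel.Quotient A V, #{x : V | mk x = ω} := by
    rw [← card_univ]
    exact card_eq_sum_card_fiberwise (fun _ _ => mem_univ _)
  rw [h1]
  have h2 : ∀ ω : MulAction.orbitRel.Quotient A V, #{x : V | mk x = ω} = Fintype.card A := by
    intro ω
    induction ω using Quotient.inductionOn with
    | _ v =>
      rw [← card_univ]
      symm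
      refine card_bij (fun a _ => a • v) ?_ ?_ ?_
      · intro a _
        rw [mem_filter]
        refine ⟨mem_univ _, ?_⟩
        exact Quotient.sound (MulAction.orbitRel_apply.mpr ⟨a, rfl⟩)
      · intro a _ a' _ h
        have h3 : a'⁻¹ * a = 1 := by
          apply hfree _ v
          rw [mul_smul, h, inv_smul_smul]
        exact (eq_of_inv_mul_eq_one h3).symm
      · intro x hx
        rw [mem_filter] at hx
        obtain ⟨a, ha⟩ := MulAction.orbitRel_apply.mp (Quotient.exact hx.2)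
        exact ⟨a, mem_univ _, ha⟩
  rw [sum_congr rfl (fun ω _ => h2 ω), sum_const, card_univ, smul_eq_mul]

theorem local_bound (r : ℕ) (hr : 3 ≤ r) (R : ℕ) (hR : 1 ≤ R) :
    ∃ K : ℕ, 1 ≤ K ∧ ∀ (V A : Type) [Fintype V] [DecidableEq V] [CommGroup A] [Fintype A]
      [MulAction A V] (H : Finset (Finset V)),
      (∀ (a : A) (x : V), a • x = x → a = 1) → (∀ e ∈ H, e.card = r) →
      (∀ (a : A), ∀ e ∈ H, e.image (fun x => a • x) ∈ H) →
      (∀ E ⊆ H, E.Nonempty → E.card ≤ K → (r - 2) * E.card ≤ (E.biUnion id).card) →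
      ∀ d : ℕ, Fintype.card V < d ^ R * Fintype.card A → ∀ b : V,
        #{e ∈ H | b ∈ e} * Fintype.card A ≤ (2 * R + 2 * r + 1) * Fintype.card V * d := by
  obtain ⟨J, hJ⟩ := exists_slowGrowth (12 * (R * R) + 6 * r + 4)
  refine ⟨(12 * (R * R) + 6 * r + 4) ^ J * (4 * (R * R) + 2 * r + 1), ?_, ?_⟩
  · exact Nat.mul_pos (Nat.pow_pos (by omega)) (by omega)
  intro V A _ _ _ _ _ H hfree hunif hinv hno d hd b
  classical
  have hc := card_orbits (V := V) (A := A) hfree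
  have hd' : Fintype.card (MulAction.orbitRel.Quotient A V) < d ^ R := by
    rw [← hc] at hd
    exact Nat.lt_of_mul_lt_mul_right hd
  have h := degree_bound (Ω := MulAction.orbitRel.Quotient A V) hfree H hinv
    (fun x => Quotient.mk _ x)
    (fun x y hxy => by
      obtain ⟨a, ha⟩ := MulAction.orbitRel_apply.mp (Quotient.exact hxy.symm)
      exact ⟨a, ha⟩)
    (fun a x => Quotient.sound (MulAction.orbitRel_apply.mpr ⟨a, rfl⟩))
    hr hunif hR hd' (hJ A) le_rfl hno b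
  calc #{e ∈ H | b ∈ e} * Fintype.card A
      ≤ (2 * R + 1 + 2 * r) * (Fintype.card (MulAction.orbitRel.Quotient A V) * d) *
        Fintype.card A := Nat.mul_le_mul_right _ h
    _ = (2 * R + 2 * r + 1) *
        (Fintype.card (MulAction.orbitRel.Quotient A V) * Fintype.card A) * d := by ring
    _ = _ := by rw [hc]

theorem global_bound (r : ℕ) (hr : 3 ≤ r) (ε : ℝ) (hε : 0 < ε) :
    ∃ K : ℕ, 1 ≤ K ∧ ∀ k : ℕ, K ≤ k → ∃ n₀ : ℕ, ∀ (V A : Type) [Fintype V] [DecidableEq V]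
      [CommGroup A] [Fintype A] [MulAction A V] (H : Finset (Finset V)),
      n₀ ≤ Fintype.card V → (Fintype.card V : ℝ) ^ ε ≤ Fintype.card A →
      (∀ (a : A) (x : V), a • x = x → a = 1) → (∀ e ∈ H, e.card = r) →
      (∀ (a : A), ∀ e ∈ H, e.image (fun x => a • x) ∈ H) →
      (Fintype.card V : ℝ) ^ (2 - ε / 2) ≤ H.card →
      ∃ E ⊆ H, E.card = k ∧ K * (E.biUnion id).card + k ≤ K * ((r - 2) * k) := by
  obtain ⟨R, hR1, hR⟩ : ∃ R : ℕ, 1 ≤ R ∧ 1 / (R : ℝ) ≤ ε / 4 := by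
    refine ⟨⌈4 / ε⌉₊ + 1, by omega, ?_⟩
    have h1 := Nat.le_ceil (4 / ε)
    have h2 : 4 / ε ≤ ((⌈4 / ε⌉₊ + 1 : ℕ) : ℝ) := by push_cast; linarith
    have h3 : (0 : ℝ) < ((⌈4 / ε⌉₊ + 1 : ℕ) : ℝ) := by positivity
    rw [div_le_iff₀ h3]
    rw [div_le_iff₀ hε] at h2
    nlinarith
  obtain ⟨K₀, hK₀, hloc⟩ := local_bound r hr R hR1
  refine ⟨4 * K₀ * K₀ + 2 * K₀, by nlinarith, ?_⟩
  intro k hk
  have t1 := (tendsto_rpow_atTop (show (0 : ℝ) < ε / 4 by positivity)).comp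
    tendsto_natCast_atTop_atTop
  have t2 := (tendsto_rpow_atTop hε).comp (tendsto_natCast_atTop_atTop (R := ℝ))
  have ev1 := t1.eventually_gt_atTop (((2 * R + 2 * r + 1 : ℕ) : ℝ))
  have ev2 := t2.eventually_gt_atTop (((k * (K₀ * K₀ * r) : ℕ) : ℝ))
  obtain ⟨n₀, hn₀⟩ := Filter.eventually_atTop.mp (ev1.and ev2)
  refine ⟨max n₀ 1, ?_⟩
  intro V A _ _ _ _ _ H hn hA hfree hunif hinv hH
  classical
  obtain ⟨g1, g2⟩ := hn₀ (Fintype.card V) (le_trans (le_max_left _ _) hn)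
  simp only [Function.comp_apply] at g1 g2
  have hn1 : 1 ≤ Fintype.card V := le_trans (le_max_right _ _) hn
  set n := Fintype.card V with hndef
  set m := Fintype.card A with hmdef
  have hm : k * (K₀ * K₀ * r) < m := by
    have := lt_of_lt_of_le g2 hA
    exact_mod_cast this
  by_contra hcon
  have hno : ∀ E ⊆ H, E.Nonempty → E.card ≤ K₀ → (r - 2) * E.card ≤ (E.biUnion id).card := by
    intro E hE hEne hEK
    by_contra hlt
    push Not at hlt
    exact hcon (multi hfree H hinv hr hunif E hE hEK hEne hlt hk hm)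
  have hmpos : 1 ≤ m := Fintype.card_pos
  have hnR : (1 : ℝ) ≤ (n : ℝ) ^ (1 / (R : ℝ)) :=
    Real.one_le_rpow (by exact_mod_cast hn1) (by positivity)
  have hRpos : (0 : ℝ) < R := by exact_mod_cast hR1
  set d := ⌊(n : ℝ) ^ (1 / (R : ℝ))⌋₊ + 1 with hd
  have hd1 : (n : ℝ) ^ (1 / (R : ℝ)) < d := by
    rw [hd]; push_cast; exact Nat.lt_floor_add_one _
  have hd2 : (d : ℝ) ≤ 2 * (n : ℝ) ^ (1 / (R : ℝ)) := by
    rw [hd]; push_cast
    have := Nat.floor_le (show (0 : ℝ) ≤ (n : ℝ) ^ (1 / (R : ℝ)) by positivity)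
    linarith
  have hd3 : n < d ^ R := by
    have h1 : ((n : ℝ) ^ (1 / (R : ℝ))) ^ R < (d : ℝ) ^ R :=
      pow_lt_pow_left₀ hd1 (by positivity) (by omega)
    rw [← Real.rpow_natCast, ← Real.rpow_mul (by positivity), one_div,
      inv_mul_cancel₀ hRpos.ne', Real.rpow_one] at h1
    exact_mod_cast h1
  have hdeg := hloc V A H hfree hunif hinv hno d
    (lt_of_lt_of_le hd3 (Nat.le_mul_of_pos_right _ hmpos))
  -- sum of degrees
  have hsum : ∑ b : V, #{e ∈ H | b ∈ e} = H.card * r := by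
    have h1 := sum_card_bipartiteAbove_eq_sum_card_bipartiteBelow
      (s := (univ : Finset V)) (t := H) (fun b e => b ∈ e)
    simp only [bipartiteAbove, bipartiteBelow] at h1
    rw [h1, sum_congr rfl (fun e he => ?_), sum_const, smul_eq_mul]
    rw [← hunif e he]
    congr 1
    ext x
    simp
  have htot : H.card * r * m ≤ (2 * R + 2 * r + 1) * n * d * n := by
    rw [← hsum, sum_mul]
    calc ∑ b : V, #{e ∈ H | b ∈ e} * m ≤ ∑ _b : V, (2 * R + 2 * r + 1) * n * d :=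
          sum_le_sum fun b _ => hdeg b
      _ = _ := by rw [sum_const, card_univ, smul_eq_mul]; ring
  have htot' : (H.card : ℝ) * r * m ≤ ((2 * R + 2 * r + 1 : ℕ) : ℝ) * n * d * n := by
    exact_mod_cast htot
  have hnpos : (0 : ℝ) < n := by exact_mod_cast hn1
  set C := ((2 * R + 2 * r + 1 : ℕ) : ℝ) with hC
  have hCpos : 0 ≤ C := Nat.cast_nonneg _
  -- lower bound for the left side
  have hr' : (3 : ℝ) ≤ r := by exact_mod_cast hr
  have l1 : (n : ℝ) ^ (2 - ε / 2) * 3 * (n : ℝ) ^ ε ≤ (H.card : ℝ) * r * m := by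
    gcongr
  have l2 : (n : ℝ) ^ (2 - ε / 2) * 3 * (n : ℝ) ^ ε = 3 * (n : ℝ) ^ (2 + ε / 2) := by
    rw [mul_right_comm, ← Real.rpow_add hnpos]
    have : 2 - ε / 2 + ε = 2 + ε / 2 := by ring
    rw [this]; ring
  have u1 : C * n * d * n ≤ 2 * (C * (n : ℝ) ^ (2 + ε / 4)) := by
    have h1 : (n : ℝ) ^ (1 / (R : ℝ)) ≤ (n : ℝ) ^ (ε / 4) :=
      Real.rpow_le_rpow_of_exponent_le (by exact_mod_cast hn1) hR
    have h2 : (n : ℝ) ^ (2 + ε / 4) = n * n * (n : ℝ) ^ (ε / 4) := by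
      rw [Real.rpow_add hnpos]
      congr 1
      rw [← pow_two]
      exact Real.rpow_ofNat _ _
    rw [h2]
    have h3 : (d : ℝ) ≤ 2 * (n : ℝ) ^ (ε / 4) := hd2.trans (by linarith)
    calc C * n * d * n = C * (n * n) * d := by ring
      _ ≤ C * (n * n) * (2 * (n : ℝ) ^ (ε / 4)) := by gcongr
      _ = _ := by ring
  have u2 : (n : ℝ) ^ (2 + ε / 2) = (n : ℝ) ^ (ε / 4) * (n : ℝ) ^ (2 + ε / 4) := by
    rw [← Real.rpow_add hnpos]
    congr 1
    ring
  have hpos4 : (0 : ℝ) < (n : ℝ) ^ (2 + ε / 4) := by positivity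
  have f1 : 3 * ((n : ℝ) ^ (ε / 4) * (n : ℝ) ^ (2 + ε / 4)) ≤ 2 * (C * (n : ℝ) ^ (2 + ε / 4)) := by
    rw [← u2, ← l2]
    linarith
  have f2 : 3 * (C * (n : ℝ) ^ (2 + ε / 4)) < 3 * ((n : ℝ) ^ (ε / 4) * (n : ℝ) ^ (2 + ε / 4)) := by
    have := mul_lt_mul_of_pos_right g1 hpos4
    linarith
  have f3 : 0 ≤ C * (n : ℝ) ^ (2 + ε / 4) := by positivity
  linarith

end Pool.Agent.H268R3.BE
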