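import Mathlib

/-! Slow growth of commutative groups. -/

set_option autoImplicit false

open Finset
open scoped Pointwise

namespace Pool.Agent.H268R3.BE

/-- Sets of at most `r` elements grow slowly up to the power `J`. -/
def SlowGrowth (A : Type*) [Group A] [DecidableEq A] (r J : ℕ) : Prop :=
  ∀ G : Finset A, 1 ∈ G → G.card ≤ r → r ^ J * (G ^ J).card < (r + 1) ^ J

theorem SlowGrowth.step {A : Type*} [Group A] [DecidableEq A] {r J : ℕ} (h : SlowGrowth A r J)
    {G : Finset A} (h1 : 1 ∈ G) (hG : G.card ≤ r) :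
    ∃ j < J, r * (G ^ (j + 1)).card < (r + 1) * (G ^ j).card := by
  by_contra hcon
  push Not at hcon
  have key : ∀ j ≤ J, (r + 1) ^ j ≤ r ^ j * (G ^ j).card := by
    intro j
    induction j with
    | zero => intro _; simp
    | succ j ih =>
      intro hj
      have h2 := ih (by omega)
      have h3 := hcon j (by omega)
      calc (r + 1) ^ (j + 1) = (r + 1) ^ j * (r + 1) := pow_succ _ _
        _ ≤ r ^ j * (G ^ j).card * (r + 1) := Nat.mul_le_mul_right _ h2
        _ = r ^ j * ((r + 1) * (G ^ j).card) := by ring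
        _ ≤ r ^ j * (r * (G ^ (j + 1)).card) := Nat.mul_le_mul_left _ h3
        _ = r ^ (j + 1) * (G ^ (j + 1)).card := by ring
  have := key J le_rfl
  have h2 := h G h1 hG
  omega

theorem mem_pow_insert {A : Type*} [CommGroup A] [DecidableEq A] (g : A) (G : Finset A) (J : ℕ)
    (x : A) (hx : x ∈ (insert g G) ^ J) : ∃ i ≤ J, ∃ w ∈ G ^ (J - i), x = g ^ i * w := by
  induction J generalizing x with
  | zero =>
    refine ⟨0, le_rfl, 1, ?_, ?_⟩
    · simp
    · simpa using hx
  | succ J ih =>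
    rw [pow_succ, mem_mul] at hx
    obtain ⟨y, hy, z, hz, rfl⟩ := hx
    obtain ⟨i, hi, w, hw, rfl⟩ := ih y hy
    rw [mem_insert] at hz
    rcases hz with rfl | hz
    · refine ⟨i + 1, by omega, w, ?_, ?_⟩
      · rwa [Nat.add_sub_add_right]
      · rw [pow_succ]; rw [mul_assoc, mul_assoc, mul_comm w z]
    · refine ⟨i, by omega, w * z, ?_, ?_⟩
      · rw [Nat.succ_sub hi, pow_succ]
        exact mul_mem_mul hw hz
      · rw [mul_assoc]

theorem comm_card_pow_le {A : Type*} [CommGroup A] [DecidableEq A] (G : Finset A) (J : ℕ) :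
    (G ^ J).card ≤ (J + 1) ^ G.card := by
  induction G using Finset.induction_on generalizing J with
  | empty =>
    rcases Nat.eq_zero_or_pos J with h | h
    · subst h; simp
    · rw [empty_pow (by omega)]
      simp
  | insert g G hg ih =>
    have hsub : (insert g G) ^ J ⊆
        (range (J + 1)).biUnion (fun i => (G ^ (J - i)).image (fun w => g ^ i * w)) := by
      intro x hx
      obtain ⟨i, hi, w, hw, rfl⟩ := mem_pow_insert g G J x hx
      rw [mem_biUnion]
      exact ⟨i, mem_range.mpr (by omega), mem_image.mpr ⟨w, hw, rfl⟩⟩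
    calc ((insert g G) ^ J).card ≤ _ := card_le_card hsub
      _ ≤ ∑ i ∈ range (J + 1), ((G ^ (J - i)).image (fun w => g ^ i * w)).card := card_biUnion_le
      _ ≤ ∑ i ∈ range (J + 1), (J + 1) ^ G.card := by
          refine sum_le_sum fun i _ => ?_
          exact card_image_le.trans ((ih (J - i)).trans (Nat.pow_le_pow_left (by omega) _))
      _ = (J + 1) ^ (insert g G).card := by
          rw [sum_const, card_range, smul_eq_mul, card_insert_of_notMem hg, pow_succ, mul_comm]

theorem exists_J (r : ℕ) : ∃ J : ℕ, r ^ J * (J + 1) ^ r < (r + 1) ^ J := by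
  rcases Nat.eq_zero_or_pos r with h | h
  · subst h
    exact ⟨1, by simp⟩
  · have hr : (0 : ℝ) < r := by exact_mod_cast h
    have hq : (1 : ℝ) < ((r : ℝ) + 1) / r := by
      rw [lt_div_iff₀ hr]; linarith
    have ht := tendsto_pow_const_div_const_pow_of_one_lt r hq
    have hpos : (0 : ℝ) < 1 / (((r : ℝ) + 1) / r) := by positivity
    have hev := ht.eventually (gt_mem_nhds hpos)
    obtain ⟨N, hN⟩ := Filter.eventually_atTop.mp hev
    have h1 := hN (N + 1) (by omega)
    refine ⟨N, ?_⟩
    have h2 : (((N + 1 : ℕ) : ℝ)) ^ r < (((r : ℝ) + 1) / r) ^ N := by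
      have h3 : (0 : ℝ) < (((r : ℝ) + 1) / r) ^ (N + 1) := by positivity
      rw [div_lt_iff₀ h3] at h1
      have h4 : 1 / (((r : ℝ) + 1) / r) * (((r : ℝ) + 1) / r) ^ (N + 1) = (((r : ℝ) + 1) / r) ^ N := by
        rw [pow_succ]
        field_simp
      rw [h4] at h1
      exact h1
    have h5 : (r : ℝ) ^ N * (((N + 1 : ℕ) : ℝ)) ^ r < ((r : ℝ) + 1) ^ N := by
      rw [div_pow, lt_div_iff₀ (by positivity)] at h2
      linarith
    exact_mod_cast h5

theorem exists_slowGrowth (r : ℕ) :
    ∃ J : ℕ, ∀ (A : Type) [CommGroup A] [DecidableEq A], SlowGrowth A r J := by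
  obtain ⟨J, hJ⟩ := exists_J r
  refine ⟨J, ?_⟩
  intro A _ _ G _ hG
  have h1 := comm_card_pow_le G J
  have h2 : (J + 1) ^ G.card ≤ (J + 1) ^ r := Nat.pow_le_pow_right (by omega) hG
  calc r ^ J * (G ^ J).card ≤ r ^ J * (J + 1) ^ r := Nat.mul_le_mul_left _ (h1.trans h2)
    _ < _ := hJ

end Pool.Agent.H268R3.BE
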