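import Pool.Agent.H268R3.BE.Growth

/-! Lifting a dense spot of the quotient. -/

set_option autoImplicit false

open Finset
open scoped Pointwise

namespace Pool.Agent.H268R3.BE

variable {V Ω A : Type} [DecidableEq V] [Group A] [MulAction A V]

/-- The translate of a set of vertices. -/
def tr (a : A) (e : Finset V) : Finset V := e.image (fun x => a • x)

theorem card_tr (a : A) (e : Finset V) : (tr a e).card = e.card :=
  card_image_of_injective _ (MulAction.injective a)

theorem tr_injective (a : A) : Function.Injective (tr a : Finset V → Finset V) :=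
  image_injective (MulAction.injective a)

theorem tr_tr (a b : A) (e : Finset V) : tr a (tr b e) = tr (a * b) e := by
  unfold tr
  rw [image_image]
  congr 1
  funext x
  simp [mul_smul]

theorem tr_mono (a : A) {e f : Finset V} (h : e ⊆ f) : tr a e ⊆ tr a f := image_subset_image h

theorem mem_tr {a : A} {e : Finset V} {x : V} : x ∈ tr a e ↔ ∃ y ∈ e, a • y = x := by
  simp [tr]

variable [DecidableEq Ω] [DecidableEq A]

/-- If few vertex orbits are touched by many edges at `b`, then few vertices span many edges. -/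
theorem lift (hfree : ∀ (a : A) (x : V), a • x = x → a = 1) (H : Finset (Finset V))
    (hH : ∀ (a : A), ∀ e ∈ H, tr a e ∈ H) (mk : V → Ω)
    (hmk : ∀ x y, mk x = mk y → ∃ a : A, a • x = y) {s : ℕ} (hs : 3 ≤ s) (b : V)
    (P : Finset (Finset V)) (hP : P ⊆ H) (f : Finset V → Finset V)
    (hf : ∀ p ∈ P, f p ⊆ p ∧ (f p).card = 3) (hb : ∀ p ∈ P, b ∈ p)
    (hcard : ∀ p ∈ P, p.card = s) {c t r J : ℕ}
    (hc : ∀ p ∈ P, ∃ Q : Finset V, Q.card ≤ c ∧ ∀ x ∈ p, (∃ a : A, a • b = x) → x ∈ Q)
    (ht : ((P.biUnion f).image mk).card ≤ t) (hct : c * t < P.card) (hctr : c * t ≤ r)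
    (hPr : 3 * P.card + 1 ≤ r) (hgrow : SlowGrowth A r J) :
    ∃ E ⊆ H, E.Nonempty ∧ E.card ≤ r ^ J * P.card ∧ (E.biUnion id).card < (s - 2) * E.card := by
  classical
  set U := P.biUnion f with hU
  -- base points of the orbits
  let β : Ω → V := fun ω => if h : ∃ x, mk x = ω then h.choose else b
  have hβ : ∀ x, mk (β (mk x)) = mk x := by
    intro x
    have h : ∃ y, mk y = mk x := ⟨x, rfl⟩
    simp only [β, h, dif_pos]
    exact h.choose_spec
  have hg : ∀ x, ∃ a : A, a • β (mk x) = x := fun x => hmk _ _ (hβ x)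
  choose g hg using hg
  set G : Finset A := insert 1 (U.image g) with hG
  have hUcard : U.card ≤ 3 * P.card := by
    calc U.card ≤ ∑ p ∈ P, (f p).card := card_biUnion_le
      _ = ∑ _p ∈ P, 3 := sum_congr rfl fun p hp => (hf p hp).2
      _ = 3 * P.card := by simp [mul_comm]
  have hGcard : G.card ≤ r := by
    have h1 : G.card ≤ (U.image g).card + 1 := card_insert_le _ _
    have h2 : (U.image g).card ≤ U.card := card_image_le
    omega
  obtain ⟨j, hj, hgr⟩ := hgrow.step (mem_insert_self 1 _) hGcard
  set F := G ^ j with hF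
  have h1F : (1 : A) ∈ F := by
    have : (1 : A) ^ j ∈ G ^ j := pow_mem_pow (mem_insert_self 1 _)
    simpa using this
  have hF0 : 0 < F.card := card_pos.mpr ⟨1, h1F⟩
  -- the vertices
  let S := (F ×ˢ U).image (fun q => q.1 • q.2)
  have hS : S.card ≤ t * (G ^ (j + 1)).card := by
    have hsub : S ⊆ ((U.image mk) ×ˢ (G ^ (j + 1))).image (fun q => q.2 • β q.1) := by
      intro v hv
      simp only [S, mem_image, mem_product, Prod.exists] at hv
      obtain ⟨a, x, ⟨ha, hx⟩, rfl⟩ := hv
      rw [mem_image]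
      refine ⟨(mk x, a * g x), ?_, ?_⟩
      · rw [mem_product]
        refine ⟨mem_image_of_mem _ hx, ?_⟩
        rw [pow_succ]
        exact mul_mem_mul ha (mem_insert_of_mem (mem_image_of_mem _ hx))
      · simp only
        rw [mul_smul, hg x]
    calc S.card ≤ _ := card_le_card hsub
      _ ≤ ((U.image mk) ×ˢ (G ^ (j + 1))).card := card_image_le
      _ = (U.image mk).card * (G ^ (j + 1)).card := card_product _ _
      _ ≤ _ := Nat.mul_le_mul_right _ ht
  -- the edges
  let E := (F ×ˢ P).image (fun q => tr q.1 q.2)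
  have hEH : E ⊆ H := by
    intro e he
    simp only [E, mem_image, mem_product, Prod.exists] at he
    obtain ⟨a, p, ⟨_, hp⟩, rfl⟩ := he
    exact hH a p (hP hp)
  have hEP : F.card * P.card ≤ c * E.card := by
    have h0 : (F ×ˢ P).card ≤ c * E.card := by
      refine card_le_mul_card_image (F ×ˢ P) c ?_
      intro e he
      rw [mem_image] at he
      obtain ⟨⟨a0, p0⟩, hq, rfl⟩ := he
      rw [mem_product] at hq
      obtain ⟨Q, hQ, hQ'⟩ := hc p0 hq.2
      have h1 : #{q ∈ F ×ˢ P | tr q.1 q.2 = tr a0 p0} ≤ (tr a0 Q).card := by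
        refine card_le_card_of_injOn (fun q => q.1 • b) ?_ ?_
        · rintro ⟨a, p⟩ hap
          rw [mem_coe, mem_filter, mem_product] at hap
          obtain ⟨⟨_, hp⟩, heq⟩ := hap
          simp only at heq ⊢
          have h2 : a • b ∈ tr a0 p0 := by
            rw [← heq]
            exact mem_tr.mpr ⟨b, hb p hp, rfl⟩
          obtain ⟨y, hy, hy'⟩ := mem_tr.mp h2
          rw [mem_coe, mem_tr]
          refine ⟨y, hQ' y hy ⟨a0⁻¹ * a, ?_⟩, hy'⟩
          rw [mul_smul, ← hy', inv_smul_smul]
        · rintro ⟨a, p⟩ hap ⟨a', p'⟩ hap' heq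
          rw [mem_coe, mem_filter, mem_product] at hap hap'
          simp only at heq hap hap'
          have h3 : a'⁻¹ * a = 1 := by
            apply hfree _ b
            rw [mul_smul, heq, inv_smul_smul]
          have h4 : a = a' := by
            have := eq_of_inv_mul_eq_one h3
            exact this.symm
          subst h4
          have h5 := tr_injective a (hap.2.trans hap'.2.symm)
          rw [h5]
      exact h1.trans ((card_tr a0 Q).le.trans hQ)
    rwa [card_product] at h0
  have hPpos : 0 < P.card := by omega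
  have hEne : E.Nonempty := by
    obtain ⟨p, hp⟩ := card_pos.mp hPpos
    exact ⟨tr 1 p, mem_image.mpr ⟨(1, p), mem_product.mpr ⟨h1F, hp⟩, rfl⟩⟩
  have hSE : S.card < E.card := by
    by_contra hcon
    push Not at hcon
    set g1 := (G ^ (j + 1)).card with hg1
    set g0 := F.card with hg0
    have e1 : g0 * P.card ≤ (c * t) * g1 := by
      calc g0 * P.card ≤ c * E.card := hEP
        _ ≤ c * (t * g1) := Nat.mul_le_mul_left _ (hcon.trans hS)
        _ = _ := by ring
    have e2 : g0 * (c * t + 1) ≤ (c * t) * g1 := (Nat.mul_le_mul_left _ hct).trans e1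
    generalize c * t = m at e2 hctr
    rcases Nat.eq_zero_or_pos m with hm | hm
    · subst hm; omega
    · have e3 : r * (g0 * (m + 1)) ≤ m * (r * g1) := by
        calc r * (g0 * (m + 1)) ≤ r * (m * g1) := Nat.mul_le_mul_left _ e2
          _ = _ := by ring
      have e4 : m * (r * g1) < m * ((r + 1) * g0) := Nat.mul_lt_mul_of_pos_left hgr hm
      have e5 : r * (g0 * (m + 1)) < m * ((r + 1) * g0) := lt_of_le_of_lt e3 e4
      have e6 : g0 * r < g0 * m := by nlinarith
      have e7 := Nat.lt_of_mul_lt_mul_left e6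
      omega
  refine ⟨E, hEH, hEne, ?_, ?_⟩
  · calc E.card ≤ (F ×ˢ P).card := card_image_le
      _ = F.card * P.card := card_product _ _
      _ ≤ r ^ J * P.card := by
          refine Nat.mul_le_mul_right _ ?_
          calc F.card ≤ G.card ^ j := card_pow_le
            _ ≤ r ^ j := Nat.pow_le_pow_left hGcard _
            _ ≤ r ^ J := Nat.pow_le_pow_right (by omega) hj.le
  · have hsub : E.biUnion id ⊆ S ∪ E.biUnion (fun e => e \ S) := by
      intro x hx
      rw [mem_biUnion] at hx
      obtain ⟨e, he, hx⟩ := hx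
      rw [mem_union]
      by_cases h : x ∈ S
      · exact Or.inl h
      · exact Or.inr (mem_biUnion.mpr ⟨e, he, mem_sdiff.mpr ⟨hx, h⟩⟩)
    have hdiff : ∀ e ∈ E, (e \ S).card ≤ s - 3 := by
      intro e he
      simp only [E, mem_image, mem_product, Prod.exists] at he
      obtain ⟨a, p, ⟨ha, hp⟩, rfl⟩ := he
      have h1 : tr a (f p) ⊆ S := by
        intro x hx
        obtain ⟨y, hy, rfl⟩ := mem_tr.mp hx
        simp only [S, mem_image, mem_product, Prod.exists]
        exact ⟨a, y, ⟨ha, mem_biUnion.mpr ⟨p, hp, hy⟩⟩, rfl⟩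
      have h2 : tr a p \ S ⊆ tr a p \ tr a (f p) := sdiff_subset_sdiff (Subset.refl _) h1
      have h3 := card_le_card h2
      rw [card_sdiff_of_subset (tr_mono a (hf p hp).1), card_tr, card_tr, (hf p hp).2,
        hcard p hp] at h3
      exact h3
    have h1 : (E.biUnion (fun e => e \ S)).card ≤ E.card * (s - 3) := by
      calc _ ≤ ∑ e ∈ E, (e \ S).card := card_biUnion_le
        _ ≤ ∑ _e ∈ E, (s - 3) := sum_le_sum hdiff
        _ = _ := by simp
    have h2 := (card_le_card hsub).trans (card_union_le _ _)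
    obtain ⟨s', rfl⟩ : ∃ s', s = s' + 3 := ⟨s - 3, by omega⟩
    have e1 : s' + 3 - 3 = s' := by omega
    have e2 : s' + 3 - 2 = s' + 1 := by omega
    rw [e1] at h1
    rw [e2]
    have e3 : (s' + 1) * E.card = E.card * s' + E.card := by ring
    omega

end Pool.Agent.H268R3.BE
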