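import Pool.Agent.H268R3.BE.Degree

/-! Many edges on few vertices, for every large number of edges. -/

set_option autoImplicit false

open Finset

namespace Pool.Agent.H268R3.BE

variable {V A : Type} [DecidableEq V] [Group A] [DecidableEq A] [MulAction A V]

theorem translates [Fintype A] (hfree : ∀ (a : A) (x : V), a • x = x → a = 1)
    (E₀ : Finset (Finset V)) {s K : ℕ} (hs : 1 ≤ s) (hcard : ∀ e ∈ E₀, e.card = s)
    (hK : E₀.card ≤ K) (hne : E₀.Nonempty) (q : ℕ) (hq : q * (K * K * s) < Fintype.card A) :
    ∃ X : Finset A, X.card = q + 1 ∧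
      ∀ a ∈ X, ∀ a' ∈ X, a ≠ a' → Disjoint (E₀.image (tr a)) (E₀.image (tr a')) := by
  classical
  induction q with
  | zero =>
    refine ⟨{1}, by simp, ?_⟩
    intro a ha a' ha' h
    rw [mem_singleton] at ha ha'
    exact absurd (ha.trans ha'.symm) h
  | succ q ih =>
    obtain ⟨X, hX, hdis⟩ := ih (lt_of_le_of_lt (Nat.mul_le_mul_right _ (Nat.le_succ q)) hq)
    let B : Finset A := X.biUnion fun a => E₀.biUnion fun e => E₀.biUnion fun e' =>
      univ.filter fun a' => tr a' e' = tr a e
    have hB : B.card < Fintype.card A := by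
      refine lt_of_le_of_lt ?_ hq
      calc B.card ≤ X.card * (K * K * s) := by
            refine card_biUnion_le_card_mul _ _ _ ?_
            intro a _
            calc _ ≤ E₀.card * (K * s) := by
                  refine card_biUnion_le_card_mul _ _ _ ?_
                  intro e he
                  calc _ ≤ E₀.card * s := by
                        refine card_biUnion_le_card_mul _ _ _ ?_
                        intro e' he'
                        have h1 : 0 < e'.card := by rw [hcard e' he']; omega
                        obtain ⟨z, hz⟩ := card_pos.mp h1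
                        calc _ ≤ (tr a e).card := by
                              refine card_le_card_of_injOn (fun a' => a' • z) ?_ ?_
                              · intro a' ha'
                                rw [mem_coe, mem_filter] at ha'
                                rw [mem_coe, ← ha'.2]
                                exact mem_tr.mpr ⟨z, hz, rfl⟩
                              · intro a1 _ a2 _ h12
                                simp only at h12
                                have h3 : a2⁻¹ * a1 = 1 := by
                                  apply hfree _ z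
                                  rw [mul_smul, h12, inv_smul_smul]
                                exact (eq_of_inv_mul_eq_one h3).symm
                          _ = s := by rw [card_tr, hcard e he]
                    _ ≤ K * s := Nat.mul_le_mul_right _ hK
              _ ≤ K * (K * s) := Nat.mul_le_mul_right _ hK
              _ = K * K * s := by ring
        _ = _ := by rw [hX]
    obtain ⟨a', ha'⟩ : ∃ a', a' ∉ B := by
      by_contra hcon
      push Not at hcon
      have : B = univ := eq_univ_iff_forall.mpr hcon
      rw [this, card_univ] at hB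
      omega
    have hdis' : ∀ a ∈ X, Disjoint (E₀.image (tr a)) (E₀.image (tr a')) := by
      intro a ha
      rw [Finset.disjoint_left]
      intro e he he'
      rw [mem_image] at he he'
      obtain ⟨e1, he1, h1⟩ := he
      obtain ⟨e2, he2, h2⟩ := he'
      apply ha'
      simp only [B, mem_biUnion, mem_filter, mem_univ, true_and]
      exact ⟨a, ha, e1, he1, e2, he2, h2.trans h1.symm⟩
    have ha'X : a' ∉ X := by
      intro h
      have h1 := hdis' a' h
      rw [disjoint_self_iff_empty] at h1
      exact hne.image _ |>.ne_empty h1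
    refine ⟨insert a' X, by rw [card_insert_of_notMem ha'X, hX], ?_⟩
    intro a ha b hb hab
    rw [mem_insert] at ha hb
    rcases ha with rfl | ha
    · rcases hb with rfl | hb
      · exact absurd rfl hab
      · exact (hdis' b hb).symm
    · rcases hb with rfl | hb
      · exact hdis' a ha
      · exact hdis a ha b hb hab

theorem arith {K q u s t k e0 : ℕ} (hs : 3 ≤ s) (he : e0 ≤ K) (ht : t < e0)
    (hk : k = q * e0 + t) (hu : u < (s - 2) * e0) (hkK : 4 * K * K + 2 * K ≤ k) :
    (4 * K * K + 2 * K) * (q * u + s * t) + k ≤ (4 * K * K + 2 * K) * ((s - 2) * k) := by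
  obtain ⟨m, rfl⟩ : ∃ m, s = m + 3 := ⟨s - 3, by omega⟩
  have e1 : m + 3 - 2 = m + 1 := by omega
  rw [e1] at *
  have h1 : q * u + q ≤ (m + 1) * (q * e0) := by
    calc q * u + q = q * (u + 1) := by ring
      _ ≤ q * ((m + 1) * e0) := Nat.mul_le_mul_left _ hu
      _ = _ := by ring
  have h2 : k ≤ q * K + t := by
    rw [hk]
    exact Nat.add_le_add_right (Nat.mul_le_mul_left _ he) _
  -- K1 q ≥ 2 K1 t + k
  have h3 : (4 * K * K + 2 * K) * (2 * t) + k ≤ (4 * K * K + 2 * K) * q := by
    have htK : t ≤ K := by omega
    have h4 : 2 * (2 * K + 1) * k ≤ 2 * (2 * K + 1) * (q * K + t) := Nat.mul_le_mul_left _ h2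
    have h5 : (4 * K + 1) * (4 * K * K + 2 * K) ≤ (4 * K + 1) * k := Nat.mul_le_mul_left _ hkK
    have h6 : 2 * (2 * K + 1) * (2 * K + 1) * t ≤ 2 * (2 * K + 1) * (2 * K + 1) * K :=
      Nat.mul_le_mul_left _ htK
    have h7 : 2 * (2 * K + 1) * (2 * K + 1) * K ≤ (4 * K + 1) * (4 * K * K + 2 * K) := by
      nlinarith [Nat.zero_le (K * K * K), Nat.zero_le (K * K), Nat.zero_le K]
    nlinarith
  have h8 : (4 * K * K + 2 * K) * (q * u + q) ≤ (4 * K * K + 2 * K) * ((m + 1) * (q * e0)) :=
    Nat.mul_le_mul_left _ h1
  have h9 : (4 * K * K + 2 * K) * ((m + 1) * k) =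
      (4 * K * K + 2 * K) * ((m + 1) * (q * e0)) + (4 * K * K + 2 * K) * ((m + 1) * t) := by
    rw [hk]; ring
  rw [h9]
  have h10 : (4 * K * K + 2 * K) * (q * u + (m + 3) * t) =
      (4 * K * K + 2 * K) * (q * u) + (4 * K * K + 2 * K) * ((m + 1) * t) +
        (4 * K * K + 2 * K) * (2 * t) := by ring
  rw [h10]
  have h11 : (4 * K * K + 2 * K) * (q * u + q) =
      (4 * K * K + 2 * K) * (q * u) + (4 * K * K + 2 * K) * q := by ring
  omega

theorem multi [Fintype A] (hfree : ∀ (a : A) (x : V), a • x = x → a = 1)
    (H : Finset (Finset V)) (hH : ∀ (a : A), ∀ e ∈ H, tr a e ∈ H)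
    {s : ℕ} (hs : 3 ≤ s) (hcard : ∀ e ∈ H, e.card = s) (E₀ : Finset (Finset V)) (hE : E₀ ⊆ H)
    {K : ℕ} (hK : E₀.card ≤ K) (hne : E₀.Nonempty)
    (hu : (E₀.biUnion id).card < (s - 2) * E₀.card) {k : ℕ} (hkK : 4 * K * K + 2 * K ≤ k)
    (hA : k * (K * K * s) < Fintype.card A) :
    ∃ E ⊆ H, E.card = k ∧
      (4 * K * K + 2 * K) * (E.biUnion id).card + k ≤ (4 * K * K + 2 * K) * ((s - 2) * k) := by
  classical
  set e0 := E₀.card with he0
  have he0pos : 0 < e0 := card_pos.mpr hne
  set q := k / e0 with hq
  set t := k % e0 with ht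
  have hkq : k = q * e0 + t := by
    rw [hq, ht]
    exact (Nat.div_add_mod' k e0).symm
  have htlt : t < e0 := Nat.mod_lt _ he0pos
  have hqk : q ≤ k := Nat.div_le_self _ _
  obtain ⟨X, hX, hdis⟩ := translates hfree E₀ (by omega : 1 ≤ s) (fun e he => hcard e (hE he)) hK
    hne q (lt_of_le_of_lt (Nat.mul_le_mul_right _ hqk) hA)
  have hXpos : 0 < X.card := by
    rw [hX]
    exact Nat.succ_pos _
  obtain ⟨a', ha'⟩ := card_pos.mp hXpos
  set X' := X.erase a' with hX'
  have hX'c : X'.card = q := by rw [hX', card_erase_of_mem ha', hX]; exact Nat.add_sub_cancel _ _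
  have himg : ∀ a : A, (E₀.image (tr a)).card = e0 := fun a =>
    card_image_of_injective _ (tr_injective a)
  obtain ⟨T, hT, hTc⟩ := exists_subset_card_eq (show t ≤ (E₀.image (tr a')).card by
    rw [himg]; omega)
  have hinH : ∀ a : A, E₀.image (tr a) ⊆ H := by
    intro a e he
    rw [mem_image] at he
    obtain ⟨e', he', rfl⟩ := he
    exact hH a e' (hE he')
  refine ⟨X'.biUnion (fun a => E₀.image (tr a)) ∪ T, ?_, ?_, ?_⟩
  · refine union_subset ?_ (hT.trans (hinH a'))
    intro e he
    rw [mem_biUnion] at he
    obtain ⟨a, _, he⟩ := he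
    exact hinH a he
  · rw [card_union_of_disjoint, card_biUnion, hTc]
    · rw [sum_congr rfl (fun a _ => himg a), sum_const, hX'c, smul_eq_mul]
      exact hkq.symm
    · intro a ha b hb hab
      exact hdis a (mem_of_mem_erase ha) b (mem_of_mem_erase hb) hab
    · rw [disjoint_biUnion_left]
      intro a ha
      rw [mem_erase] at ha
      exact (hdis a ha.2 a' ha' ha.1).mono_right hT
  · have hsub : (X'.biUnion (fun a => E₀.image (tr a)) ∪ T).biUnion id ⊆
        X'.biUnion (fun a => tr a (E₀.biUnion id)) ∪ T.biUnion id := by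
      intro x hx
      rw [mem_biUnion] at hx
      obtain ⟨e, he, hx⟩ := hx
      rw [mem_union] at he
      rw [mem_union]
      rcases he with he | he
      · left
        rw [mem_biUnion] at he
        obtain ⟨a, ha, he⟩ := he
        rw [mem_image] at he
        obtain ⟨e', he', rfl⟩ := he
        rw [mem_biUnion]
        refine ⟨a, ha, ?_⟩
        exact tr_mono a (subset_biUnion_of_mem id he') hx
      · right
        exact mem_biUnion.mpr ⟨e, he, hx⟩
    have h1 : (X'.biUnion (fun a => tr a (E₀.biUnion id))).card ≤ q * (E₀.biUnion id).card := by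
      rw [← hX'c]
      exact card_biUnion_le_card_mul _ _ _ (fun a _ => (card_tr a _).le)
    have h2 : (T.biUnion id).card ≤ s * t := by
      rw [← hTc, mul_comm]
      exact card_biUnion_le_card_mul _ _ _ (fun e he => (hcard e (hinH a' (hT he))).le)
    have h3 := (card_le_card hsub).trans (card_union_le _ _)
    have h4 := arith hs hK htlt hkq hu hkK
    refine le_trans ?_ h4
    refine Nat.add_le_add_right (Nat.mul_le_mul_left _ ?_) _
    omega

end Pool.Agent.H268R3.BE
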